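import Pool.Agent.U661.RD.Defs
import Pool.Agent.U661.RZ.Cor

/-!
# The theorems in terms of the definitions of `Defs`
-/

set_option autoImplicit false

namespace Pool.Agent.U661.RD

open Finset Pool.Agent.Y195.HF Pool.Agent.W666.GB Pool.Agent.W669.HD Pool.Agent.R770.QC

variable {m : ℕ} {V : Type} [NormedAddCommGroup V] [InnerProductSpace ℝ V]

theorem sym_iff {S : V → V → ℝ} (h : R770.NS.SymForm S) : HS.SymForm S :=
  ⟨h.add, h.smul, h.symm⟩

theorem sym_iff' {S : V → V → ℝ} (h : HS.SymForm S) : R770.NS.SymForm S :=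
  ⟨h.add, h.smul, h.symm⟩

theorem PQ.old {g : V → V} {T : Fin 4 → V → V → ℝ} (h : PQ g T) :
    RZ.PQ g (T 0) (T 1) (T 2) (T 3) :=
  ⟨h.1, h.2 0, h.2 1, h.2 2, h.2 3⟩

theorem MCone.old {g : V → V} {D : V → V → V → V → ℝ} (h : MCone g D) : RZ.MCone g D := by
  obtain ⟨r, T, T', hT, hD⟩ := h
  exact ⟨r, T, T', fun j => ⟨(hT j).1.old, (hT j).2.old⟩, hD⟩

theorem SCone.old {g : V → V} {D : V → V → V → V → ℝ} (h : SCone g D) : RZ.SCone g D := by
  obtain ⟨r, S, S', hS, hD⟩ := h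
  exact ⟨r, S, S', fun j => ⟨⟨⟨sym_iff (hS j).1.1, (hS j).1.2⟩, sym_iff (hS j).2.1.1,
    (hS j).2.1.2⟩, (hS j).2.2.1, (hS j).2.2.2⟩, hD⟩

theorem RevM.old {n q : ℕ} {A : Fin n → V → V → ℝ} {h : Fin q → V → V → ℝ}
    {D : V → V → V → V → ℝ} (hr : RevM A h D) : RZ.RevM A h D := by
  intro c p
  obtain ⟨g, h1, h2⟩ := hr c p
  refine ⟨g, h1, ?_⟩
  rcases h2 with ⟨h2, h3⟩ | ⟨h2, h3, h4⟩
  · exact Or.inl ⟨h2, h3.old⟩
  · exact Or.inr ⟨h2, h3, h4.old⟩

theorem NegRevM.old {δ : ℝ} {R : V → V → V → V → ℝ} (h : NegRevM δ R) : RZ.NegRevM δ R := by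
  obtain ⟨n, q, A, h, D, hA, hh, hr, rfl⟩ := h
  exact ⟨n, q, A, h, D, hA, fun b => sym_iff (hh b), hr.old, rfl⟩

theorem main (e : OrthonormalBasis (Fin m × Bool) ℝ V) {δ : ℝ} (hδ : 0 ≤ δ)
    {n q : ℕ} {A : Fin n → V → V → ℝ} {h : Fin q → V → V → ℝ} {D : V → V → V → V → ℝ}
    (hA : ∀ a, SkewForm (A a)) (hh : ∀ b, R770.NS.SymForm (h b)) (hr : RevM A h D) :
    roundGB m δ ≤ (-1) ^ m * gbc e (negT (plus δ D)) ∧
      (-1) ^ m * gbc e (negT (plus δ D)) ≤ (-1) ^ m * gbc e (negT (full (plus δ D) A h)) :=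
  RZ.revM_neg e hδ hA (fun b => sym_iff (hh b)) hr.old

theorem rigid (e : OrthonormalBasis (Fin m × Bool) ℝ V) (hm : 0 < m) {δ : ℝ} (hδ : 0 ≤ δ)
    {n q : ℕ} {A : Fin n → V → V → ℝ} {h : Fin q → V → V → ℝ} {D : V → V → V → V → ℝ}
    (hA : ∀ a, SkewForm (A a)) (hh : ∀ b, R770.NS.SymForm (h b)) (hr : RevM A h D) :
    roundGB m δ ≤ tangGB m δ (scal e (negT (full (plus δ D) A h))) ∧
      tangGB m δ (scal e (negT (full (plus δ D) A h))) ≤
        (-1) ^ m * gbc e (negT (full (plus δ D) A h)) ∧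
      (0 < δ → (-1) ^ m * gbc e (negT (full (plus δ D) A h)) = roundGB m δ →
        (∀ a x y, A a x y = 0) ∧ (∀ b x y, h b x y = 0) ∧ ∀ x y z w, D x y z w = 0) :=
  ⟨RZ.revM_tang e hm hδ hA (fun b => sym_iff (hh b)) hr.old,
    RZ.revM_scal e hm hδ hA (fun b => sym_iff (hh b)) hr.old,
    fun hδ' heq => RZ.revM_rigid e hm hδ' hA (fun b => sym_iff (hh b)) hr.old heq.le⟩

open MeasureTheory in
theorem integrals {M : Type} [MeasurableSpace M] (μ : Measure M) (K : CurvField m M) (δ : M → ℝ)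
    (hm : 0 < m) (h : ∀ p, 0 ≤ δ p ∧ NegRevM (δ p) (K.R p)) :
    0 ≤ (-1) ^ m * ∫ p, K.gb p ∂μ ∧
      (Integrable K.gb μ →
        ∫ p, roundGB m (δ p) ∂μ ≤ (-1) ^ m * ∫ p, K.gb p ∂μ ∧
        ∫ p, tangGB m (δ p) (scal (K.e p) (K.R p)) ∂μ ≤ (-1) ^ m * ∫ p, K.gb p ∂μ ∧
        ((-1) ^ m * ∫ p, K.gb p ∂μ = ∫ p, roundGB m (δ p) ∂μ →
          ∀ᵐ p ∂μ, 0 < δ p → ∀ x y z w, K.R p x y z w = -(δ p * unitT x y z w))) := by
  have h' : ∀ p, 0 ≤ δ p ∧ RZ.NegRevM (δ p) (K.R p) := fun p => ⟨(h p).1, (h p).2.old⟩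
  exact ⟨RZ.field_sign μ K δ h', fun hi => ⟨RZ.field_low μ K δ h' hi,
    RZ.field_tang μ K δ hm h' hi, fun heq => RZ.field_rigid μ K δ hm h' hi heq.le⟩⟩

theorem psd_smul {S : V → V → ℝ} (h : Psd S) {t : ℝ} (ht : 0 ≤ t) :
    Psd fun x y => t * S x y :=
  ⟨⟨fun x x' y => by rw [h.1.add]; ring, fun t x y => by rw [h.1.smul]; ring,
    fun x y => by rw [h.1.symm x y]⟩, fun x => mul_nonneg ht (h.2 x)⟩

omit [NormedAddCommGroup V] [InnerProductSpace ℝ V] in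
theorem comb_rev {n : ℕ} {A : Fin n → V → V → ℝ} {g : V → V}
    (h : ∀ a, Revs g (A a)) (p : Fin n → ℝ) : Revs g (comb p A) := fun x y => by
  simp only [comb, h _ _ _, mul_neg, Finset.sum_neg_distrib]

omit [NormedAddCommGroup V] [InnerProductSpace ℝ V] in
theorem comb_fix {n : ℕ} {A : Fin n → V → V → ℝ} {g : V → V}
    (h : ∀ a, Pres g (A a)) (p : Fin n → ℝ) : Pres g (comb p A) := fun x y => by
  simp only [comb, h _ _ _]

/-- the quadruple of a symmetric form -/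
def symq (S : V → V → ℝ) : Fin 4 → V → V → ℝ := ![S, fun _ _ => 0, fun _ _ => 0, fun _ _ => 0]

theorem symq_pq {g : V → V} {S : V → V → ℝ} (h : Psd S) (hg : Pres g S) : PQ g (symq S) :=
  ⟨RZ.psd_qpos ⟨sym_iff h.1, h.2⟩, fun i => by
    fin_cases i
    · exact hg
    · exact fun _ _ => rfl
    · exact fun _ _ => rfl
    · exact fun _ _ => rfl⟩

/-- Products of symmetric forms are Moore products. -/
theorem SCone.mcone {g : V → V} {D : V → V → V → V → ℝ} (h : SCone g D) : MCone g D := by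
  obtain ⟨r, S, S', hS, hD⟩ := h
  refine ⟨r, fun j => symq (S j), fun j => symq fun x y => 1 / 3 * S' j x y, fun j =>
    ⟨symq_pq (hS j).1 (hS j).2.2.1, symq_pq (psd_smul (hS j).2.1 (by norm_num)) fun x y => ?_⟩,
      fun x y z w => ?_⟩
  · exact congrArg (fun t => 1 / 3 * t) ((hS j).2.2.2 x y)
  · rw [hD]
    exact Finset.sum_congr rfl fun j _ => (RZ.moore_sq (S j) (S' j) x y z w).symm

theorem ambient {n q r : ℕ} {δ : ℝ} {k : Fin r → ℝ} {S : Fin r → V → V → ℝ}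
    {c : Fin n → ℝ} {w : Fin n → V → V → ℝ} {h : Fin q → V → V → ℝ}
    (hk : ∀ i, 0 ≤ k i) (hS : ∀ i, Psd (S i)) (hc : ∀ a, 0 ≤ c a) (hw : ∀ a, SkewForm (w a))
    (hh : ∀ b, R770.NS.SymForm (h b))
    (H : ∀ d : Fin q → ℝ, ∃ g : V →ₗᵢ[ℝ] V, (∀ i, Pres g (S i)) ∧ Revs g (comb d h) ∧
      ((∀ a, Revs g (w a)) ∨ n ≤ 2 ∧ ∀ a, Pres g (w a))) :
    NegRevM δ (ambR δ k S c w h) := by
  set A : Fin n → V → V → ℝ := fun a x y => Real.sqrt (c a) * w a x y with hAd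
  have hA : ∀ a, SkewForm (A a) := fun a =>
    ⟨fun x x' y => by simp only [hAd, (hw a).add]; ring,
      fun t x y => by simp only [hAd, (hw a).smul]; ring,
      fun x y => by simp only [hAd, (hw a).anti x y]; ring⟩
  set D : V → V → V → V → ℝ := fun x y z u =>
    ∑ i, kn (fun x y => k i / 2 * S i x y) (S i) x y z u with hD
  refine ⟨n, q, A, h, D, hA, hh, fun d p => ?_, ?_⟩
  · obtain ⟨g, h1, h2, h3⟩ := H d
    have hcone : SCone g D := ⟨r, fun i x y => k i / 2 * S i x y, S, fun i =>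
      ⟨psd_smul (hS i) (by have := hk i; positivity), hS i,
        fun x y => congrArg (fun t => k i / 2 * t) (h1 i x y), h1 i⟩, fun _ _ _ _ => rfl⟩
    refine ⟨g, h2, ?_⟩
    rcases h3 with h3 | ⟨hn, h3⟩
    · exact Or.inl ⟨fun i => comb_rev (fun a x y => by simp only [hAd, h3 a x y]; ring) (p i),
        hcone.mcone⟩
    · obtain ⟨v, hv, hv'⟩ := RW.three_dep hn p
      refine Or.inr ⟨fun i => comb_fix (fun a x y => by simp only [hAd, h3 a x y]) (p i),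
        ⟨v, hv, fun x y => ?_⟩, hcone⟩
      simp only [comb, Finset.mul_sum]
      rw [Finset.sum_comm]
      refine Finset.sum_eq_zero fun a _ => ?_
      have h4 : ∑ i, v i * (p i a * A a x y) = (∑ i, v i * p i a) * A a x y := by
        rw [Finset.sum_mul]
        exact Finset.sum_congr rfl fun i _ => by ring
      rw [h4, hv', zero_mul]
  · funext x y z u
    simp only [ambR, negT, full, plus, hD]
    have h1 : ∀ i, kn (fun x y => k i / 2 * S i x y) (S i) x y z u =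
        k i * R770.NS.knSq (S i) x y z u := fun i => by
      simp only [kn, R770.NS.knSq]
      ring
    have h2 : ∀ a, skewCurv (A a) x y z u = c a * skewCurv (w a) x y z u := by
      intro a
      have hs : Real.sqrt (c a) * Real.sqrt (c a) = c a := Real.mul_self_sqrt (hc a)
      simp only [hAd, skewCurv]
      linear_combination (2 * (w a x y * w a z u) + w a x z * w a y u - w a x u * w a y z) * hs
    simp only [h1, h2]
    ring

end Pool.Agent.U661.RD
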