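import Pool.Agent.R770.QC.Final

/-!
# Definitions
-/

set_option autoImplicit false

namespace Pool.Agent.U661.RD

open Finset Pool.Agent.Y195.HF Pool.Agent.W666.GB Pool.Agent.W669.HD Pool.Agent.R770.NS
open Pool.Agent.R770.QC

variable {V : Type}

/-- The real combination of forms with the coefficients `c`. -/
def comb {n : ℕ} (c : Fin n → ℝ) (A : Fin n → V → V → ℝ) (x y : V) : ℝ := ∑ a, c a * A a x y

/-- `g` fixes the form `B` -/
def Pres (g : V → V) (B : V → V → ℝ) : Prop := ∀ x y, B (g x) (g y) = B x y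

/-- `g` reverses the form `B` -/
def Revs (g : V → V) (B : V → V → ℝ) : Prop := ∀ x y, B (g x) (g y) = - B x y

/-- The Kulkarni–Nomizu product of two symmetric forms. -/
def kn (S S' : V → V → ℝ) (x y z w : V) : ℝ :=
  S x z * S' y w + S' x z * S y w - S x w * S' y z - S' x w * S y z

/-- The Moore product of the quaternionic hermitian forms `T 0 + i T 1 + j T 2 + k T 3` and
`T' 0 + i T' 1 + j T' 2 + k T' 3`: the polarization of `EH`. -/
def moore (T T' : Fin 4 → V → V → ℝ) (x y z w : V) : ℝ :=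
  EH (T 0 + T' 0) (T 1 + T' 1) (T 2 + T' 2) (T 3 + T' 3) x y z w -
    EH (T 0) (T 1) (T 2) (T 3) x y z w - EH (T' 0) (T' 1) (T' 2) (T' 3) x y z w

/-- `F + ∑ skewCurv (A a) - ∑ (h b ∧ h b)`, where
`(h ∧ h)(x,y,z,w) = h(x,z) h(y,w) - h(x,w) h(y,z)`. -/
def full {n q : ℕ} (F : V → V → V → V → ℝ) (A : Fin n → V → V → ℝ) (h : Fin q → V → V → ℝ)
    (x y z w : V) : ℝ :=
  F x y z w + ∑ a, skewCurv (A a) x y z w - ∑ b, knSq (h b) x y z w

/-- With `s = - 2 m (2 m - 1) κ`, where `-κ` is the mean of the sectional curvatures of a tensor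
with scalar curvature `s`, this is the value at `κ` of the tangent of `roundGB m` at `δ`,
`(2 m)! / ((4 π)^m m!) (δ^m + m δ^(m-1) (κ - δ))`. -/
noncomputable def tangGB (m : ℕ) (δ s : ℝ) : ℝ :=
  roundGB m 1 * (δ ^ (m - 1) * (- s / (2 * (2 * m - 1)) - (m - 1) * δ))

variable [NormedAddCommGroup V] [InnerProductSpace ℝ V]

/-- Symmetric positive semidefinite forms. -/
def Psd (S : V → V → ℝ) : Prop := SymForm S ∧ ∀ x, 0 ≤ S x x

/-- `T 0 + i T 1 + j T 2 + k T 3` is a positive semidefinite quaternionic hermitian form whose four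
parts are fixed by `g`. -/
def PQ (g : V → V) (T : Fin 4 → V → V → ℝ) : Prop :=
  QPos (T 0) (T 1) (T 2) (T 3) ∧ ∀ i, Pres g (T i)

/-- `D` is a sum of Moore products of positive semidefinite quaternionic hermitian forms which are
fixed by `g`. -/
def MCone (g : V → V) (D : V → V → V → V → ℝ) : Prop :=
  ∃ (r : ℕ) (T T' : Fin r → Fin 4 → V → V → ℝ), (∀ j, PQ g (T j) ∧ PQ g (T' j)) ∧
    ∀ x y z w, D x y z w = ∑ j, moore (T j) (T' j) x y z w

/-- `D` is a sum of products of positive semidefinite symmetric forms which are fixed by `g`. -/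
def SCone (g : V → V) (D : V → V → V → V → ℝ) : Prop :=
  ∃ (r : ℕ) (S S' : Fin r → V → V → ℝ),
    (∀ j, Psd (S j) ∧ Psd (S' j) ∧ Pres g (S j) ∧ Pres g (S' j)) ∧
    ∀ x y z w, D x y z w = ∑ j, kn (S j) (S' j) x y z w

/-- For every real combination `H` of the symmetric forms `h b` and any three real combinations of
the skew forms `A a` there is a linear isometry `g` of the space which reverses `H`, and which
either reverses the three combinations, and then `D` is a sum of Moore products of forms fixed by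
`g`, or fixes them, and then they are linearly dependent, and `D` is a sum of products of symmetric
forms fixed by `g`. -/
def RevM {n q : ℕ} (A : Fin n → V → V → ℝ) (h : Fin q → V → V → ℝ)
    (D : V → V → V → V → ℝ) : Prop :=
  ∀ (c : Fin q → ℝ) (p : Fin 3 → Fin n → ℝ), ∃ g : V →ₗᵢ[ℝ] V, Revs g (comb c h) ∧
    (((∀ i, Revs g (comb (p i) A)) ∧ MCone g D) ∨
      ((∀ i, Pres g (comb (p i) A)) ∧
        (∃ v : Fin 3 → ℝ, v ≠ 0 ∧ ∀ x y, ∑ i, v i * comb (p i) A x y = 0) ∧ SCone g D))

/-- `δ unitT + D` -/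
noncomputable def plus (δ : ℝ) (D : V → V → V → V → ℝ) (x y z w : V) : ℝ :=
  δ * unitT x y z w + D x y z w

/-- The pointwise hypothesis: `-R = δ unitT + D + ∑ skewCurv (A a) - ∑ (h b ∧ h b)`. -/
def NegRevM (δ : ℝ) (R : V → V → V → V → ℝ) : Prop :=
  ∃ (n q : ℕ) (A : Fin n → V → V → ℝ) (h : Fin q → V → V → ℝ) (D : V → V → V → V → ℝ),
    (∀ a, SkewForm (A a)) ∧ (∀ b, SymForm (h b)) ∧ RevM A h D ∧ R = negT (full (plus δ D) A h)

/-- The curvature tensor of a submanifold of a product of spaces of constant sectional, holomorphic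
sectional and quaternionic sectional curvature:
`-(δ unitT + ∑ k i (S i ∧ S i) + ∑ c a skewCurv (w a)) + ∑ (h b ∧ h b)`. -/
noncomputable def ambR {n q r : ℕ} (δ : ℝ) (k : Fin r → ℝ) (S : Fin r → V → V → ℝ)
    (c : Fin n → ℝ) (w : Fin n → V → V → ℝ) (h : Fin q → V → V → ℝ) (x y z u : V) : ℝ :=
  -(δ * unitT x y z u + ∑ i, k i * knSq (S i) x y z u +
    ∑ a, c a * skewCurv (w a) x y z u) + ∑ b, knSq (h b) x y z u

end Pool.Agent.U661.RD
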